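import Mathlib

/-!
Preorderings of `ℚ[X]`.
-/

namespace Q48.PosQ

open Polynomial

/-- Finite sums of squares in `ℚ[X]` with nonnegative rational weights. -/
def IsSOS (f : ℚ[X]) : Prop :=
  ∃ (m : ℕ) (a : Fin m → ℚ) (h : Fin m → ℚ[X]), (∀ j, 0 ≤ a j) ∧ f = ∑ j, C (a j) * h j ^ 2

/-- The preordering of `ℚ[X]` generated by `g 0, …, g (s - 1)`: the sums, over the subsets `e` of
the index set, of a weighted sum of squares times the product of the `g i`, `i ∈ e`. -/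
def T {s : ℕ} (g : Fin s → ℚ[X]) : Set ℚ[X] :=
  {f | ∃ σ : Finset (Fin s) → ℚ[X], (∀ e, IsSOS (σ e)) ∧ f = ∑ e, σ e * ∏ i ∈ e, g i}

/-- The rational polynomials which are nonnegative on `K`. -/
def Pos (K : Set ℝ) : Set ℚ[X] := {f | ∀ t ∈ K, 0 ≤ aeval t f}

end Q48.PosQ
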