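import Mathlib
import Pool.Agent.Q48.Polya1
import Pool.Agent.Q48.PosQ.Defs

namespace Q48.PosQ

open Polynomial

/-! ### closure properties -/

theorem isSOS_add {f g : ℚ[X]} (hf : IsSOS f) (hg : IsSOS g) : IsSOS (f + g) := by
  obtain ⟨m, a, h, ha, rfl⟩ := hf
  obtain ⟨n, b, k, hb, rfl⟩ := hg
  refine ⟨m + n, Fin.append a b, Fin.append h k, fun j => ?_, ?_⟩
  · refine Fin.addCases (fun i => ?_) (fun i => ?_) j
    · rw [Fin.append_left]; exact ha i
    · rw [Fin.append_right]; exact hb i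
  · rw [Fin.sum_univ_add]
    simp only [Fin.append_left, Fin.append_right]

theorem isSOS_zero : IsSOS 0 := ⟨0, Fin.elim0, Fin.elim0, fun j => j.elim0, by simp⟩

theorem isSOS_single {a : ℚ} (ha : 0 ≤ a) (h : ℚ[X]) : IsSOS (C a * h ^ 2) :=
  ⟨1, fun _ => a, fun _ => h, fun _ => ha, by simp⟩

theorem isSOS_sum {ι : Type*} (s : Finset ι) (f : ι → ℚ[X]) (h : ∀ i ∈ s, IsSOS (f i)) :
    IsSOS (∑ i ∈ s, f i) := by
  classical
  induction s using Finset.induction_on with
  | empty => simpa using isSOS_zero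
  | insert i s hi ih =>
    rw [Finset.sum_insert hi]
    exact isSOS_add (h i (Finset.mem_insert_self i s))
      (ih fun j hj => h j (Finset.mem_insert_of_mem hj))

theorem isSOS_mul {f g : ℚ[X]} (hf : IsSOS f) (hg : IsSOS g) : IsSOS (f * g) := by
  obtain ⟨m, a, h, ha, rfl⟩ := hf
  obtain ⟨n, b, k, hb, rfl⟩ := hg
  rw [Finset.sum_mul_sum]
  refine isSOS_sum _ _ fun i _ => isSOS_sum _ _ fun j _ => ?_
  have : C (a i) * h i ^ 2 * (C (b j) * k j ^ 2) = C (a i * b j) * (h i * k j) ^ 2 := by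
    rw [C_mul]; ring
  rw [this]
  exact isSOS_single (mul_nonneg (ha i) (hb j)) _

theorem isSOS_sq (h : ℚ[X]) : IsSOS (h ^ 2) := by
  simpa using isSOS_single zero_le_one h

/-- Preorderings, abstractly. -/
structure PreOrd (M : Set ℚ[X]) : Prop where
  add : ∀ {f g}, f ∈ M → g ∈ M → f + g ∈ M
  mul : ∀ {f g}, f ∈ M → g ∈ M → f * g ∈ M
  sq : ∀ f, f ^ 2 ∈ M
  const : ∀ {a : ℚ}, 0 ≤ a → C a ∈ M

section T

variable {s : ℕ} (g : Fin s → ℚ[X])

theorem T_add {f f' : ℚ[X]} (hf : f ∈ T g) (hf' : f' ∈ T g) : f + f' ∈ T g := by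
  obtain ⟨σ, h, rfl⟩ := hf
  obtain ⟨σ', h', rfl⟩ := hf'
  refine ⟨fun e => σ e + σ' e, fun e => isSOS_add (h e) (h' e), ?_⟩
  rw [← Finset.sum_add_distrib]
  exact Finset.sum_congr rfl fun e _ => (add_mul _ _ _).symm

theorem T_single (e : Finset (Fin s)) {σ : ℚ[X]} (hσ : IsSOS σ) : σ * ∏ i ∈ e, g i ∈ T g := by
  classical
  refine ⟨fun e' => if e' = e then σ else 0, fun e' => ?_, ?_⟩
  · show IsSOS (if e' = e then σ else 0)
    split_ifs
    · exact hσ
    · exact isSOS_zero
  · simp only [ite_mul, zero_mul, Finset.sum_ite_eq', Finset.mem_univ, if_true]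

theorem T_zero : (0 : ℚ[X]) ∈ T g := by
  have := T_single g ∅ isSOS_zero
  simpa using this

theorem T_sum {ι : Type*} (u : Finset ι) (f : ι → ℚ[X]) (h : ∀ i ∈ u, f i ∈ T g) :
    ∑ i ∈ u, f i ∈ T g := by
  classical
  induction u using Finset.induction_on with
  | empty => simpa using T_zero g
  | insert i u hi ih =>
    rw [Finset.sum_insert hi]
    exact T_add g (h i (Finset.mem_insert_self i u))
      (ih fun j hj => h j (Finset.mem_insert_of_mem hj))

theorem T_mul {f f' : ℚ[X]} (hf : f ∈ T g) (hf' : f' ∈ T g) : f * f' ∈ T g := by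
  classical
  obtain ⟨σ, h, rfl⟩ := hf
  obtain ⟨σ', h', rfl⟩ := hf'
  rw [Finset.sum_mul_sum]
  refine T_sum g _ _ fun e _ => T_sum g _ _ fun e' _ => ?_
  have hprod : (∏ i ∈ e, g i) * (∏ i ∈ e', g i)
      = (∏ i ∈ e ∩ e', g i) ^ 2 * ∏ i ∈ (e \ e') ∪ (e' \ e), g i := by
    have h1 : (∏ i ∈ e, g i) = (∏ i ∈ e ∩ e', g i) * ∏ i ∈ e \ e', g i :=
      (Finset.prod_inter_mul_prod_sdiff e e' g).symm
    have h2 : (∏ i ∈ e', g i) = (∏ i ∈ e ∩ e', g i) * ∏ i ∈ e' \ e, g i := by
      rw [Finset.inter_comm]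
      exact (Finset.prod_inter_mul_prod_sdiff e' e g).symm
    rw [Finset.prod_union (Finset.disjoint_left.mpr fun i hi hi' =>
      (Finset.mem_sdiff.mp hi).2 (Finset.mem_sdiff.mp hi').1), h1, h2]
    ring
  have : σ e * (∏ i ∈ e, g i) * (σ' e' * ∏ i ∈ e', g i)
      = (σ e * σ' e' * (∏ i ∈ e ∩ e', g i) ^ 2) * ∏ i ∈ (e \ e') ∪ (e' \ e), g i := by
    calc σ e * (∏ i ∈ e, g i) * (σ' e' * ∏ i ∈ e', g i)
        = σ e * σ' e' * ((∏ i ∈ e, g i) * ∏ i ∈ e', g i) := by ring
      _ = _ := by rw [hprod]; ring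
  rw [this]
  exact T_single g _ (isSOS_mul (isSOS_mul (h e) (h' e')) (isSOS_sq _))

theorem T_sos {σ : ℚ[X]} (hσ : IsSOS σ) : σ ∈ T g := by
  have := T_single g ∅ hσ
  simpa using this

theorem T_gen (i : Fin s) : g i ∈ T g := by
  have := T_single g {i} (isSOS_sq 1)
  simpa using this

theorem T_preOrd : PreOrd (T g) where
  add := T_add g
  mul := T_mul g
  sq f := T_sos g (isSOS_sq f)
  const {a} ha := by
    have := T_sos g (isSOS_single ha 1)
    simpa using this

theorem isSOS_nonneg {σ : ℚ[X]} (hσ : IsSOS σ) (t : ℝ) : 0 ≤ aeval t σ := by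
  obtain ⟨m, a, h, ha, rfl⟩ := hσ
  rw [map_sum]
  refine Finset.sum_nonneg fun j _ => ?_
  rw [map_mul, aeval_C, map_pow]
  refine mul_nonneg ?_ (sq_nonneg _)
  have := ha j
  rw [eq_ratCast]
  exact_mod_cast this

theorem T_subset {K : Set ℝ} (h : ∀ i, g i ∈ Pos K) : T g ⊆ Pos K := by
  rintro f ⟨σ, hσ, rfl⟩ t ht
  rw [map_sum]
  refine Finset.sum_nonneg fun e _ => ?_
  rw [map_mul, map_prod]
  exact mul_nonneg (isSOS_nonneg (hσ e) t) (Finset.prod_nonneg fun i _ => h i t ht)

end T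

/-! ### strictly positive polynomials -/

theorem PreOrd.pow {M : Set ℚ[X]} (hM : PreOrd M) {f : ℚ[X]} (hf : f ∈ M) (n : ℕ) :
    f ^ n ∈ M := by
  induction n with
  | zero => simpa using hM.const zero_le_one
  | succ n ih => rw [pow_succ]; exact hM.mul ih hf

theorem PreOrd.sum {M : Set ℚ[X]} (hM : PreOrd M) {ι : Type*} (u : Finset ι) (f : ι → ℚ[X])
    (h : ∀ i ∈ u, f i ∈ M) : ∑ i ∈ u, f i ∈ M := by
  classical
  induction u using Finset.induction_on with
  | empty => simpa using hM.const le_rfl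
  | insert i u hi ih =>
    rw [Finset.sum_insert hi]
    exact hM.add (h i (Finset.mem_insert_self i u))
      (ih fun j hj => h j (Finset.mem_insert_of_mem hj))

theorem strict {M : Set ℚ[X]} (hM : PreOrd M) {a b : ℚ} (hab : a < b) (ha : X - C a ∈ M)
    (hb : C b - X ∈ M) {f : ℚ[X]} (hf : ∀ t ∈ Set.Icc (a : ℝ) b, 0 < aeval t f) : f ∈ M := by
  set n := f.natDegree with hn
  let G0 : ℚ[X] := ∑ j ∈ Finset.range (n + 1),
    C (f.coeff j) * ((C a + C b * X) ^ j * (1 + X) ^ (n - j))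
  have hba : (0 : ℚ) < b - a := sub_pos.mpr hab
  have hbaR : (a : ℝ) < b := by exact_mod_cast hab
  -- the values of `G0`
  have evG : ∀ z : ℝ, 0 ≤ z → (G0.map (algebraMap ℚ ℝ)).eval z
      = (1 + z) ^ n * aeval (((a : ℝ) + b * z) / (1 + z)) f := by
    intro z hz
    have h1 : (1 + z) ≠ 0 := by positivity
    rw [eval_map, aeval_eq_sum_range, Finset.mul_sum]
    simp only [G0, eval₂_finsetSum, eval₂_mul, eval₂_C, eval₂_pow, eval₂_add, eval₂_X,
      eval₂_one]
    refine Finset.sum_congr rfl fun j hj => ?_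
    have hj' : j ≤ n := Nat.lt_succ_iff.mp (Finset.mem_range.mp hj)
    have : (1 + z) ^ n = (1 + z) ^ (n - j) * (1 + z) ^ j := by
      rw [← pow_add, Nat.sub_add_cancel hj']
    rw [this, div_pow, Algebra.smul_def]
    simp only [eq_ratCast]
    field_simp
  obtain ⟨m, hm⟩ := Q48.Polya1.polya (G0.map (algebraMap ℚ ℝ)) (by
    intro z hz
    rw [evG z hz]
    refine mul_pos (by positivity) (hf _ ⟨?_, ?_⟩)
    · rw [le_div_iff₀ (by positivity)]
      nlinarith
    · rw [div_le_iff₀ (by positivity)]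
      nlinarith)
  set D : ℚ[X] := (1 + X) ^ m * G0 with hD
  have hDc : ∀ k, 0 ≤ D.coeff k := by
    intro k
    have h1 := hm k
    have h2 : ((1 + X) ^ m * G0.map (algebraMap ℚ ℝ) : ℝ[X]) = D.map (algebraMap ℚ ℝ) := by
      rw [hD, Polynomial.map_mul, Polynomial.map_pow, Polynomial.map_add, Polynomial.map_one,
        map_X]
    rw [h2, coeff_map, eq_ratCast] at h1
    exact_mod_cast h1
  have hDdeg : D.natDegree ≤ m + n := by
    refine natDegree_mul_le.trans (add_le_add ?_ ?_)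
    · refine natDegree_pow_le.trans ?_
      have : (1 + X : ℚ[X]).natDegree ≤ 1 := by
        refine (natDegree_add_le _ _).trans (by simp)
      simpa using Nat.mul_le_mul_left m this
    · refine natDegree_sum_le_of_forall_le _ _ fun j hj => ?_
      have hj' : j ≤ n := Nat.lt_succ_iff.mp (Finset.mem_range.mp hj)
      refine (natDegree_C_mul_le _ _).trans (natDegree_mul_le.trans ?_)
      have h1 : ((C a + C b * X : ℚ[X]) ^ j).natDegree ≤ j := by
        refine natDegree_pow_le.trans ?_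
        have : (C a + C b * X : ℚ[X]).natDegree ≤ 1 := by
          refine (natDegree_add_le _ _).trans (max_le (by simp) ?_)
          exact (natDegree_C_mul_le _ _).trans (by simp)
        simpa using Nat.mul_le_mul_left j this
      have h2 : ((1 + X : ℚ[X]) ^ (n - j)).natDegree ≤ n - j := by
        refine natDegree_pow_le.trans ?_
        have : (1 + X : ℚ[X]).natDegree ≤ 1 := by
          refine (natDegree_add_le _ _).trans (by simp)
        simpa using Nat.mul_le_mul_left (n - j) this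
      omega
  -- the Bernstein expansion
  have key : C ((b - a) ^ (m + n)) * f
      = ∑ k ∈ Finset.range (m + n + 1),
        C (D.coeff k) * ((X - C a) ^ k * (C b - X) ^ (m + n - k)) := by
    refine Polynomial.eq_of_infinite_eval_eq _ _ ?_
    refine Set.Infinite.mono (s := Set.Iio b) ?_ (Set.Iio_infinite b)
    intro t ht
    have hw : b - t ≠ 0 := (sub_pos.mpr ht).ne'
    show Polynomial.eval t _ = Polynomial.eval t _
    simp only [eval_mul, eval_C, eval_finsetSum, eval_pow, eval_sub, eval_X]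
    -- right-hand side
    have h1 : ∑ k ∈ Finset.range (m + n + 1),
        D.coeff k * ((t - a) ^ k * (b - t) ^ (m + n - k))
        = (b - t) ^ (m + n) * D.eval ((t - a) / (b - t)) := by
      rw [eval_eq_sum_range' (Nat.lt_succ_of_le hDdeg), Finset.mul_sum]
      refine Finset.sum_congr rfl fun k hk => ?_
      have hk' : k ≤ m + n := Nat.lt_succ_iff.mp (Finset.mem_range.mp hk)
      have : (b - t) ^ (m + n) = (b - t) ^ (m + n - k) * (b - t) ^ k := by
        rw [← pow_add, Nat.sub_add_cancel hk']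
      rw [this, div_pow]
      field_simp
    rw [h1, hD, eval_mul]
    have h2 : (1 + X : ℚ[X]).eval ((t - a) / (b - t)) = (b - a) / (b - t) := by
      rw [eval_add, eval_one, eval_X]
      field_simp
      ring
    have h3 : G0.eval ((t - a) / (b - t)) = ((b - a) / (b - t)) ^ n * f.eval t := by
      rw [eval_eq_sum_range (p := f), Finset.mul_sum]
      simp only [G0, eval_finsetSum, eval_mul, eval_C, eval_pow]
      refine Finset.sum_congr rfl fun j hj => ?_
      have hj' : j ≤ n := Nat.lt_succ_iff.mp (Finset.mem_range.mp hj)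
      have h4 : (C a + C b * X : ℚ[X]).eval ((t - a) / (b - t)) = (b - a) / (b - t) * t := by
        rw [eval_add, eval_C, eval_mul, eval_C, eval_X]
        field_simp
        ring
      have h5 : ((b - a) / (b - t)) ^ n
          = ((b - a) / (b - t)) ^ (n - j) * ((b - a) / (b - t)) ^ j := by
        rw [← pow_add, Nat.sub_add_cancel hj']
      rw [h4, h2, h5, mul_pow]
      ring
    rw [eval_pow, h2, h3]
    have h6 : (b - t) ^ (m + n) * (((b - a) / (b - t)) ^ m * (((b - a) / (b - t)) ^ n * f.eval t))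
        = ((b - t) * ((b - a) / (b - t))) ^ (m + n) * f.eval t := by
      rw [mul_pow, pow_add ((b - a) / (b - t))]
      ring
    rw [h6, mul_div_cancel₀ _ hw]
  have hf2 : f = C (((b - a) ^ (m + n))⁻¹) * (C ((b - a) ^ (m + n)) * f) := by
    rw [← mul_assoc, ← C_mul, inv_mul_cancel₀ (pow_ne_zero _ hba.ne'), C_1, one_mul]
  rw [hf2, key]
  refine hM.mul (hM.const (by positivity)) (hM.sum _ _ fun k _ => ?_)
  exact hM.mul (hM.const (hDc k)) (hM.mul (hM.pow ha k) (hM.pow hb _))

end Q48.PosQ
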