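import Mathlib
import Pool.Agent.Q48.PosQ.Strict

namespace Q48.PosQ

open Polynomial

theorem continuous_aevalR (f : ℚ[X]) : Continuous fun t : ℝ => aeval t f := by
  have : (fun t : ℝ => aeval t f) = fun t : ℝ => (f.map (algebraMap ℚ ℝ)).eval t := by
    funext t
    rw [eval_map_algebraMap]
  rw [this]
  exact Polynomial.continuous _

/-- nonnegativity passes from the interior minus a finite set to the closed interval -/
theorem nonneg_of_dense {α β : ℝ} (hαβ : α < β) {h : ℝ → ℝ} (hc : Continuous h) {F : Set ℝ}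
    (hF : F.Finite) (hh : ∀ t ∈ Set.Ioo α β, t ∉ F → 0 ≤ h t) : ∀ t ∈ Set.Icc α β, 0 ≤ h t := by
  intro t ht
  by_contra hneg
  have hU : IsOpen {x | h x < 0} := isOpen_lt hc continuous_const
  have hcl : t ∈ closure (Set.Ioo α β) := by rw [closure_Ioo hαβ.ne]; exact ht
  obtain ⟨y, hy1, hy2⟩ := mem_closure_iff.mp hcl _ hU (not_le.mp hneg)
  have hW : IsOpen ({x | h x < 0} ∩ Set.Ioo α β) := hU.inter isOpen_Ioo
  obtain ⟨z, hz1, hz2⟩ := (hF.countable.dense_compl ℝ).inter_open_nonempty _ hW ⟨y, hy1, hy2⟩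
  have := hh z hz1.2 hz2
  have h2 : h z < 0 := hz1.1
  linarith

/-- The main reduction. -/
theorem main {M : Set ℚ[X]} (hM : PreOrd M) {α β : ℝ} (hαβ : α < β)
    (hlow : ∀ ε : ℝ, 0 < ε → ∃ a : ℚ, (a : ℝ) ≤ α ∧ α - ε < a ∧ X - C a ∈ M)
    (hup : ∀ ε : ℝ, 0 < ε → ∃ b : ℚ, β ≤ b ∧ (b : ℝ) < β + ε ∧ C b - X ∈ M)
    (hα : ∃ g ∈ M, 0 < g.natDegree ∧ (∀ t ∈ Set.Ioo α β, 0 < aeval t g) ∧
      ∀ f : ℚ[X], aeval α f = 0 → g ∣ f)
    (hβ : ∃ g ∈ M, 0 < g.natDegree ∧ (∀ t ∈ Set.Ioo α β, 0 < aeval t g) ∧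
      ∀ f : ℚ[X], aeval β f = 0 → g ∣ f) :
    Pos (Set.Icc α β) ⊆ M := by
  have hmain : ∀ (n : ℕ) (f : ℚ[X]), f.natDegree ≤ n → f ∈ Pos (Set.Icc α β) → f ∈ M := by
    intro n
    induction n using Nat.strong_induction_on with
    | _ n ih =>
    intro f hfn hf
    by_cases hf0 : f = 0
    · rw [hf0]
      simpa using hM.const (le_refl (0 : ℚ))
    by_cases hz : ∃ t ∈ Set.Icc α β, aeval t f = 0
    swap
    · -- strictly positive
      have hpos : ∀ t ∈ Set.Icc α β, 0 < aeval t f := fun t ht =>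
        lt_of_le_of_ne (hf t ht) fun h => hz ⟨t, ht, h.symm⟩
      have hU : IsOpen {t : ℝ | 0 < aeval t f} := isOpen_lt continuous_const (continuous_aevalR f)
      obtain ⟨δ, hδ, hδ2⟩ := (isCompact_Icc (a := α) (b := β)).exists_thickening_subset_open hU
        (fun t ht => hpos t ht)
      obtain ⟨a, ha1, ha2, ha3⟩ := hlow δ hδ
      obtain ⟨b, hb1, hb2, hb3⟩ := hup δ hδ
      have hab : a < b := by
        have : (a : ℝ) < b := by linarith
        exact_mod_cast this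
      refine strict hM hab ha3 hb3 fun t ht => hδ2 ?_
      rw [Metric.mem_thickening_iff]
      rcases lt_trichotomy t α with h | h | h
      · refine ⟨α, ⟨le_rfl, hαβ.le⟩, ?_⟩
        rw [Real.dist_eq, abs_of_neg (by linarith)]
        linarith [ht.1]
      · refine ⟨α, ⟨le_rfl, hαβ.le⟩, ?_⟩
        rw [h, dist_self]
        exact hδ
      · by_cases h2 : t ≤ β
        · refine ⟨t, ⟨h.le, h2⟩, ?_⟩
          rw [dist_self]
          exact hδ
        · refine ⟨β, ⟨hαβ.le, le_rfl⟩, ?_⟩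
          rw [Real.dist_eq, abs_of_pos (by linarith)]
          linarith [ht.2]
    obtain ⟨t₀, ht₀, hz₀⟩ := hz
    -- the boundary case
    have hbd : ∀ g : ℚ[X], g ∈ M → 0 < g.natDegree → (∀ t ∈ Set.Ioo α β, 0 < aeval t g) →
        g ∣ f → f ∈ M := by
      rintro g hgM hgd hg ⟨f1, rfl⟩
      have hf1 : f1 ≠ 0 := right_ne_zero_of_mul hf0
      have hg0 : g ≠ 0 := left_ne_zero_of_mul hf0
      rw [natDegree_mul hg0 hf1] at hfn
      refine hM.mul hgM (ih f1.natDegree (by omega) f1 le_rfl ?_)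
      refine nonneg_of_dense hαβ (continuous_aevalR f1) Set.finite_empty fun t ht _ => ?_
      have h1 := hf t (Set.Ioo_subset_Icc_self ht)
      rw [map_mul] at h1
      exact nonneg_of_mul_nonneg_right h1 (hg t ht)
    rcases ht₀.1.eq_or_lt with h1 | h1
    · obtain ⟨g, hgM, hgd, hg, hdvd⟩ := hα
      exact hbd g hgM hgd hg (hdvd f (h1 ▸ hz₀))
    rcases ht₀.2.eq_or_lt with h2 | h2
    · obtain ⟨g, hgM, hgd, hg, hdvd⟩ := hβ
      exact hbd g hgM hgd hg (hdvd f (h2 ▸ hz₀))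
    -- the interior case
    have hint : IsIntegral ℚ t₀ := isAlgebraic_iff_isIntegral.mp ⟨f, hf0, hz₀⟩
    set p := minpoly ℚ t₀ with hp
    have hpirr : Irreducible p := minpoly.irreducible hint
    have hpder : aeval t₀ (derivative p) ≠ 0 :=
      hpirr.separable.aeval_derivative_ne_zero (minpoly.aeval _ _)
    obtain ⟨f1, hf1⟩ := minpoly.dvd ℚ t₀ hz₀
    have hfder : aeval t₀ (derivative f) = 0 := by
      have hmin : IsLocalMin (fun t : ℝ => aeval t f) t₀ := by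
        filter_upwards [isOpen_Ioo.mem_nhds (show t₀ ∈ Set.Ioo α β from ⟨h1, h2⟩)] with t ht
        rw [hz₀]
        exact hf t (Set.Ioo_subset_Icc_self ht)
      have := hmin.deriv_eq_zero
      rwa [Polynomial.deriv_aeval] at this
    have hf1z : aeval t₀ f1 = 0 := by
      have h3 : aeval t₀ (derivative p) * aeval t₀ f1 = 0 := by
        have h4 := hfder
        rw [hf1, derivative_mul, map_add, map_mul, map_mul, ← hp] at h4
        rw [show aeval t₀ p = 0 from minpoly.aeval _ _, zero_mul, add_zero] at h4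
        exact h4
      exact (mul_eq_zero.mp h3).resolve_left hpder
    obtain ⟨f2, hf2⟩ := minpoly.dvd ℚ t₀ hf1z
    have hff : f = p ^ 2 * f2 := by
      rw [hf1, hf2, ← hp]; ring
    have hf20 : f2 ≠ 0 := by
      rintro rfl
      rw [mul_zero] at hff
      exact hf0 hff
    rw [hff]
    have hdeg : f2.natDegree < n := by
      rw [hff, natDegree_mul (pow_ne_zero _ hpirr.ne_zero) hf20, natDegree_pow] at hfn
      have := hpirr.natDegree_pos
      omega
    refine hM.mul (hM.sq p) (ih f2.natDegree hdeg f2 le_rfl ?_)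
    have hfin : {t : ℝ | aeval t p = 0}.Finite := by
      have h5 : (p.map (algebraMap ℚ ℝ)) ≠ 0 := by
        rw [Ne, Polynomial.map_eq_zero]
        exact hpirr.ne_zero
      refine (Polynomial.finite_setOfPred_isRoot h5).subset fun t ht => ?_
      show IsRoot _ t
      rw [IsRoot.def, eval_map_algebraMap]
      exact ht
    refine nonneg_of_dense hαβ (continuous_aevalR f2) hfin fun t ht htF => ?_
    have h6 := hf t (Set.Ioo_subset_Icc_self ht)
    rw [hff, map_mul, map_pow] at h6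
    have h7 : (aeval t p : ℝ) ≠ 0 := htF
    exact nonneg_of_mul_nonneg_right h6 (by positivity)
  exact fun f hf => hmain _ f le_rfl hf

/-- `X ^ n - p` is irreducible over the rationals, for `p` prime -/
theorem irred {p n : ℕ} (hp : p.Prime) (hn : n ≠ 0) : Irreducible (X ^ n - C (p : ℚ)) := by
  have hmon : (X ^ n - C (p : ℤ)).Monic := monic_X_pow_sub_C _ hn
  have h1 : Irreducible (X ^ n - C (p : ℤ)) := by
    have hp' : Prime (p : ℤ) := Nat.prime_iff_prime_int.mp hp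
    have hdeg : (X ^ n - C (p : ℤ)).natDegree = n := natDegree_X_pow_sub_C
    refine irreducible_of_eisenstein_criterion (P := Ideal.span {(p : ℤ)}) ?_ ?_ ?_ ?_ ?_ ?_
    · exact (Ideal.span_singleton_prime hp'.ne_zero).mpr hp'
    · rw [hmon.leadingCoeff, Ideal.mem_span_singleton]
      exact hp'.not_dvd_one
    · intro m hm
      rw [degree_X_pow_sub_C (Nat.pos_of_ne_zero hn)] at hm
      have hm' : m < n := by exact_mod_cast hm
      rw [coeff_sub, coeff_X_pow, if_neg hm'.ne, coeff_C, Ideal.mem_span_singleton]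
      split_ifs <;> simp
    · rw [degree_X_pow_sub_C (Nat.pos_of_ne_zero hn)]
      exact_mod_cast Nat.pos_of_ne_zero hn
    · rw [coeff_sub, coeff_X_pow, if_neg hn.symm, coeff_C_zero, zero_sub, Ideal.span_singleton_pow,
        Ideal.mem_span_singleton, dvd_neg, sq]
      intro h
      have h2 := hp'.not_isUnit
      obtain ⟨c, hc⟩ := h
      have h3 : (p : ℤ) * 1 = p * (p * c) := by rw [mul_one, ← mul_assoc]; exact hc
      have h4 := mul_left_cancel₀ hp'.ne_zero h3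
      exact h2 (IsUnit.of_mul_eq_one _ h4.symm)
    · exact hmon.isPrimitive
  have h2 := (Polynomial.IsPrimitive.Int.irreducible_iff_irreducible_map_cast hmon.isPrimitive).mp h1
  simpa using h2

theorem dvd_of_root {p n : ℕ} (hp : p.Prime) (hn : n ≠ 0) {t : ℝ} (ht : t ^ n = p) (f : ℚ[X])
    (hf : aeval t f = 0) : X ^ n - C (p : ℚ) ∣ f := by
  have h1 : minpoly ℚ t = X ^ n - C (p : ℚ) :=
    (minpoly.eq_of_irreducible_of_monic (irred hp hn) (by simp [ht]) (monic_X_pow_sub_C _ hn)).symm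
  rw [← h1]
  exact minpoly.dvd ℚ t hf

/-- rational points close to a given real where a continuous function is close to its value -/
theorem exists_rat_near {φ : ℝ → ℝ} {γ : ℝ} (hφ : ContinuousAt φ γ) {ε δ : ℝ} (hε : 0 < ε)
    (hδ : 0 < δ) : ∃ c : ℚ, |(c : ℝ) - γ| < δ ∧ |φ c - φ γ| < ε := by
  obtain ⟨η, hη, h⟩ := Metric.continuousAt_iff.mp hφ ε hε
  obtain ⟨c, hc1, hc2⟩ := exists_rat_btwn (show γ < γ + min η δ by
    have := lt_min hη hδ
    linarith)
  have h1 : |(c : ℝ) - γ| < min η δ := by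
    rw [abs_of_pos (by linarith)]
    linarith
  refine ⟨c, h1.trans_le (min_le_right _ _), ?_⟩
  have := h (show dist (c : ℝ) γ < η from h1.trans_le (min_le_left _ _))
  rwa [Real.dist_eq] at this

/-- passing from an upper linear form to a weaker one -/
theorem PreOrd.weaken_up {M : Set ℚ[X]} (hM : PreOrd M) {u b : ℚ} (h : C u - X ∈ M)
    (hub : u ≤ b) : C b - X ∈ M := by
  have : C b - X = (C u - X) + C (b - u) := by rw [C_sub]; ring
  rw [this]
  exact hM.add h (hM.const (sub_nonneg.mpr hub))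

theorem PreOrd.weaken_low {M : Set ℚ[X]} (hM : PreOrd M) {u a : ℚ} (h : X - C u ∈ M)
    (hua : a ≤ u) : X - C a ∈ M := by
  have : X - C a = (X - C u) + C (u - a) := by rw [C_sub]; ring
  rw [this]
  exact hM.add h (hM.const (sub_nonneg.mpr hua))

theorem upper_of {M : Set ℚ[X]} (hM : PreOrd M) {β γ : ℝ} {φ : ℚ → ℚ} {φR : ℝ → ℝ}
    (hφ : ∀ c : ℚ, ((φ c : ℚ) : ℝ) = φR c) (hc : ContinuousAt φR γ) (hγ : φR γ = β)
    {δ : ℝ} (hδ : 0 < δ) (h : ∀ c : ℚ, |(c : ℝ) - γ| < δ → C (φ c) - X ∈ M) :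
    ∀ ε : ℝ, 0 < ε → ∃ b : ℚ, β ≤ b ∧ (b : ℝ) < β + ε ∧ C b - X ∈ M := by
  intro ε hε
  obtain ⟨c, hc1, hc2⟩ := exists_rat_near hc hε hδ
  rw [← hφ, hγ, abs_lt] at hc2
  obtain ⟨b, hb1, hb2⟩ := exists_rat_btwn (show max ((φ c : ℚ) : ℝ) β < β + ε from
    max_lt (by linarith [hc2.2]) (by linarith))
  refine ⟨b, (le_max_right _ _).trans hb1.le, hb2, hM.weaken_up (h c hc1) ?_⟩
  have : ((φ c : ℚ) : ℝ) ≤ b := (le_max_left _ _).trans hb1.le
  exact_mod_cast this

theorem lower_of {M : Set ℚ[X]} (hM : PreOrd M) {α γ : ℝ} {φ : ℚ → ℚ} {φR : ℝ → ℝ}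
    (hφ : ∀ c : ℚ, ((φ c : ℚ) : ℝ) = φR c) (hc : ContinuousAt φR γ) (hγ : φR γ = α)
    {δ : ℝ} (hδ : 0 < δ) (h : ∀ c : ℚ, |(c : ℝ) - γ| < δ → X - C (φ c) ∈ M) :
    ∀ ε : ℝ, 0 < ε → ∃ a : ℚ, (a : ℝ) ≤ α ∧ α - ε < a ∧ X - C a ∈ M := by
  intro ε hε
  obtain ⟨c, hc1, hc2⟩ := exists_rat_near hc hε hδ
  rw [← hφ, hγ, abs_lt] at hc2
  obtain ⟨a, ha1, ha2⟩ := exists_rat_btwn (show α - ε < min ((φ c : ℚ) : ℝ) α from
    lt_min (by linarith [hc2.1]) (by linarith))
  refine ⟨a, ha2.le.trans (min_le_right _ _), ha1, hM.weaken_low (h c hc1) ?_⟩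
  have : (a : ℝ) ≤ ((φ c : ℚ) : ℝ) := ha2.le.trans (min_le_left _ _)
  exact_mod_cast this

/-! ### the first set -/

theorem case1 {β : ℝ} (hβ0 : 0 < β) (hβ : β ^ 3 = 2) :
    Pos (Set.Icc 0 β) = T ![X, 2 - X ^ 3] := by
  have hM := T_preOrd ![X, 2 - X ^ 3]
  have hX : (X : ℚ[X]) ∈ T ![X, 2 - X ^ 3] := T_gen ![X, 2 - X ^ 3] 0
  have hG : (2 - X ^ 3 : ℚ[X]) ∈ T ![X, 2 - X ^ 3] := T_gen ![X, 2 - X ^ 3] 1
  have hev : ∀ t : ℝ, aeval t (2 - X ^ 3 : ℚ[X]) = 2 - t ^ 3 := fun t => by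
    rw [map_sub, map_pow, aeval_X, map_ofNat]
  have hC2 : (C (2 : ℚ) : ℚ[X]) = 2 := rfl
  refine subset_antisymm ?_ (T_subset _ fun i => ?_)
  · refine main hM hβ0 (fun ε hε => ⟨0, by simp, by simpa using hε, by simpa using hX⟩) ?_ ?_ ?_
    · refine upper_of hM (γ := β) (φ := fun c => (2 + 2 * c ^ 3) / (3 * c ^ 2))
        (φR := fun c => (2 + 2 * c ^ 3) / (3 * c ^ 2)) (fun c => by push_cast; ring) ?_ ?_ hβ0 ?_
      · exact ContinuousAt.div (by fun_prop) (by fun_prop) (by positivity)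
      · show (2 + 2 * β ^ 3) / (3 * β ^ 2) = β
        rw [div_eq_iff (by positivity)]
        nlinarith
      · intro c hc
        have hc0 : 0 < c := by
          rw [abs_lt] at hc
          have : (0 : ℝ) < c := by linarith [hc.1]
          exact_mod_cast this
        have e : C ((2 + 2 * c ^ 3) / (3 * c ^ 2)) - X
            = C (1 / (3 * c ^ 2)) * ((2 - X ^ 3) + (X - C c) ^ 2 * (X + C (2 * c))) := by
          have h1 : C ((2 + 2 * c ^ 3) / (3 * c ^ 2)) = C (1 / (3 * c ^ 2)) * C (2 + 2 * c ^ 3) := by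
            rw [← C_mul]; congr 1; ring
          have h2 : (X : ℚ[X]) = C (1 / (3 * c ^ 2)) * (C (3 * c ^ 2) * X) := by
            rw [← mul_assoc, ← C_mul, one_div, inv_mul_cancel₀ (by positivity), C_1, one_mul]
          conv_lhs => rw [h2]
          rw [h1, ← mul_sub]
          congr 1
          simp only [C_add, C_mul, C_pow, hC2]
          have hC3 : (C (3 : ℚ) : ℚ[X]) = 3 := rfl
          rw [hC3]
          ring
        rw [e]
        refine hM.mul (hM.const (by positivity)) (hM.add hG (hM.mul (hM.sq _) ?_))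
        exact hM.add hX (hM.const (by positivity))
    · refine ⟨X, hX, by simp, fun t ht => by simpa using ht.1, fun f hf => ?_⟩
      rw [X_dvd_iff, coeff_zero_eq_eval_zero]
      have : aeval (0 : ℝ) f = ((f.eval 0 : ℚ) : ℝ) := by
        have h := aeval_algebraMap_apply ℝ (0 : ℚ) f
        rw [map_zero] at h
        rw [h, coe_aeval_eq_eval]
        rfl
      rw [this] at hf
      exact_mod_cast hf
    · refine ⟨2 - X ^ 3, hG, ?_, fun t ht => ?_, fun f hf => ?_⟩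
      · have : (2 - X ^ 3 : ℚ[X]) = -(X ^ 3 - C 2) := by rw [hC2]; ring
        rw [this, natDegree_neg, natDegree_X_pow_sub_C]
        norm_num
      · rw [hev, sub_pos, ← hβ]
        exact pow_lt_pow_left₀ ht.2 ht.1.le (by norm_num)
      · have h := dvd_of_root Nat.prime_two (n := 3) (by norm_num) (by rw [hβ]; norm_num) f hf
        have e : (2 - X ^ 3 : ℚ[X]) = -(X ^ 3 - C ((2 : ℕ) : ℚ)) := by
          rw [Nat.cast_ofNat, hC2]; ring
        rw [e, neg_dvd]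
        exact h
  · fin_cases i
    · intro t ht
      simpa using ht.1
    · intro t ht
      show 0 ≤ aeval t (2 - X ^ 3 : ℚ[X])
      rw [hev, sub_nonneg, ← hβ]
      exact pow_le_pow_left₀ ht.1 ht.2 3

/-! ### the third set -/

theorem case3 {β : ℝ} (hβ0 : 0 < β) (hβ : β ^ 4 = 2) :
    Pos (Set.Icc (-β) β) = T ![2 - X ^ 4] := by
  have hM := T_preOrd ![(2 - X ^ 4 : ℚ[X])]
  have hG : (2 - X ^ 4 : ℚ[X]) ∈ T ![2 - X ^ 4] := T_gen ![2 - X ^ 4] 0
  have hev : ∀ t : ℝ, aeval t (2 - X ^ 4 : ℚ[X]) = 2 - t ^ 4 := fun t => by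
    rw [map_sub, map_pow, aeval_X, map_ofNat]
  have hC2 : (C (2 : ℚ) : ℚ[X]) = 2 := rfl
  have hC3 : (C (3 : ℚ) : ℚ[X]) = 3 := rfl
  have hC4 : (C (4 : ℚ) : ℚ[X]) = 4 := rfl
  have hupc : ∀ c : ℚ, 0 < c → C ((2 + 3 * c ^ 4) / (4 * c ^ 3)) - X ∈ T ![(2 - X ^ 4 : ℚ[X])] := by
    intro c hc0
    have e : C ((2 + 3 * c ^ 4) / (4 * c ^ 3)) - X
        = C (1 / (4 * c ^ 3)) * ((2 - X ^ 4) + (X - C c) ^ 2 * ((X + C c) ^ 2
          + C (2 * c ^ 2))) := by
      have h1 : C ((2 + 3 * c ^ 4) / (4 * c ^ 3)) = C (1 / (4 * c ^ 3)) * C (2 + 3 * c ^ 4) := by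
        rw [← C_mul]; congr 1; ring
      have h2 : (X : ℚ[X]) = C (1 / (4 * c ^ 3)) * (C (4 * c ^ 3) * X) := by
        rw [← mul_assoc, ← C_mul, one_div, inv_mul_cancel₀ (by positivity), C_1, one_mul]
      conv_lhs => rw [h2]
      rw [h1, ← mul_sub]
      congr 1
      simp only [C_add, C_mul, C_pow, hC2, hC3, hC4]
      ring
    rw [e]
    refine hM.mul (hM.const (by positivity)) (hM.add hG (hM.mul (hM.sq _) ?_))
    exact hM.add (hM.sq _) (hM.const (by positivity))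
  have hlowc : ∀ c : ℚ, 0 < c →
      X - C (-((2 + 3 * c ^ 4) / (4 * c ^ 3))) ∈ T ![(2 - X ^ 4 : ℚ[X])] := by
    intro c hc0
    have e : X - C (-((2 + 3 * c ^ 4) / (4 * c ^ 3)))
        = C (1 / (4 * c ^ 3)) * ((2 - X ^ 4) + (X + C c) ^ 2 * ((X - C c) ^ 2
          + C (2 * c ^ 2))) := by
      have h1 : C (-((2 + 3 * c ^ 4) / (4 * c ^ 3)))
          = -(C (1 / (4 * c ^ 3)) * C (2 + 3 * c ^ 4)) := by
        rw [← C_mul, ← C_neg]; congr 1; ring
      have h2 : (X : ℚ[X]) = C (1 / (4 * c ^ 3)) * (C (4 * c ^ 3) * X) := by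
        rw [← mul_assoc, ← C_mul, one_div, inv_mul_cancel₀ (by positivity), C_1, one_mul]
      conv_lhs => rw [h2]
      rw [h1, sub_neg_eq_add, ← mul_add]
      congr 1
      simp only [C_add, C_mul, C_pow, hC2, hC3, hC4]
      ring
    rw [e]
    refine hM.mul (hM.const (by positivity)) (hM.add hG (hM.mul (hM.sq _) ?_))
    exact hM.add (hM.sq _) (hM.const (by positivity))
  have hφc : ContinuousAt (fun c : ℝ => (2 + 3 * c ^ 4) / (4 * c ^ 3)) β :=
    ContinuousAt.div (by fun_prop) (by fun_prop) (by positivity)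
  have hφβ : (2 + 3 * β ^ 4) / (4 * β ^ 3) = β := by
    rw [div_eq_iff (by positivity)]
    nlinarith
  have hcpos : ∀ c : ℚ, |(c : ℝ) - β| < β → 0 < c := by
    intro c hc
    rw [abs_lt] at hc
    have : (0 : ℝ) < c := by linarith [hc.1]
    exact_mod_cast this
  have hbd : ∀ (γ : ℝ), γ ^ 4 = 2 → ∃ g ∈ T ![(2 - X ^ 4 : ℚ[X])], 0 < g.natDegree ∧
      (∀ t ∈ Set.Ioo (-β) β, 0 < aeval t g) ∧ ∀ f : ℚ[X], aeval γ f = 0 → g ∣ f := by
    intro γ hγ
    refine ⟨2 - X ^ 4, hG, ?_, fun t ht => ?_, fun f hf => ?_⟩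
    · have : (2 - X ^ 4 : ℚ[X]) = -(X ^ 4 - C 2) := by rw [hC2]; ring
      rw [this, natDegree_neg, natDegree_X_pow_sub_C]
      norm_num
    · rw [hev, sub_pos, ← hβ]
      have h1 : t ^ 4 = |t| ^ 4 := by rw [← abs_pow, abs_of_nonneg (by positivity)]
      rw [h1]
      exact pow_lt_pow_left₀ (abs_lt.mpr ⟨ht.1, ht.2⟩) (abs_nonneg t) (by norm_num)
    · have h := dvd_of_root Nat.prime_two (n := 4) (by norm_num) (by rw [hγ]; norm_num) f hf
      have e : (2 - X ^ 4 : ℚ[X]) = -(X ^ 4 - C ((2 : ℕ) : ℚ)) := by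
        rw [Nat.cast_ofNat, hC2]; ring
      rw [e, neg_dvd]
      exact h
  refine subset_antisymm ?_ (T_subset _ fun i => ?_)
  · refine main hM (by linarith) ?_ ?_ (hbd (-β) (by rw [← hβ]; ring)) (hbd β hβ)
    · refine lower_of hM (γ := β) (φ := fun c => -((2 + 3 * c ^ 4) / (4 * c ^ 3)))
        (φR := fun c => -((2 + 3 * c ^ 4) / (4 * c ^ 3))) (fun c => by push_cast; ring)
        hφc.neg ?_ hβ0 fun c hc => hlowc c (hcpos c hc)
      show -((2 + 3 * β ^ 4) / (4 * β ^ 3)) = -β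
      rw [hφβ]
    · exact upper_of hM (γ := β) (φ := fun c => (2 + 3 * c ^ 4) / (4 * c ^ 3))
        (φR := fun c => (2 + 3 * c ^ 4) / (4 * c ^ 3)) (fun c => by push_cast; ring)
        hφc hφβ hβ0 fun c hc => hupc c (hcpos c hc)
  · fin_cases i
    intro t ht
    show 0 ≤ aeval t (2 - X ^ 4 : ℚ[X])
    rw [hev, sub_nonneg, ← hβ]
    have h1 : t ^ 4 = |t| ^ 4 := by rw [← abs_pow, abs_of_nonneg (by positivity)]
    rw [h1]
    exact pow_le_pow_left₀ (abs_nonneg t) (abs_le.mpr ⟨ht.1, ht.2⟩) 4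

/-! ### the second set -/

theorem case2 {α β : ℝ} (hα0 : 0 < α) (hα : α ^ 2 = 2) (hβ0 : 0 < β) (hβ : β ^ 2 = 3) :
    Pos (Set.Icc α β) = T ![X, X ^ 2 - 2, 3 - X ^ 2] := by
  have hM := T_preOrd ![(X : ℚ[X]), X ^ 2 - 2, 3 - X ^ 2]
  have hX : (X : ℚ[X]) ∈ T ![(X : ℚ[X]), X ^ 2 - 2, 3 - X ^ 2] := T_gen _ 0
  have hG1 : (X ^ 2 - 2 : ℚ[X]) ∈ T ![(X : ℚ[X]), X ^ 2 - 2, 3 - X ^ 2] := T_gen _ 1
  have hG2 : (3 - X ^ 2 : ℚ[X]) ∈ T ![(X : ℚ[X]), X ^ 2 - 2, 3 - X ^ 2] := T_gen _ 2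
  have hev1 : ∀ t : ℝ, aeval t (X ^ 2 - 2 : ℚ[X]) = t ^ 2 - 2 := fun t => by
    rw [map_sub, map_pow, aeval_X, map_ofNat]
  have hev2 : ∀ t : ℝ, aeval t (3 - X ^ 2 : ℚ[X]) = 3 - t ^ 2 := fun t => by
    rw [map_sub, map_pow, aeval_X, map_ofNat]
  have hC2 : (C (2 : ℚ) : ℚ[X]) = 2 := rfl
  have hC3 : (C (3 : ℚ) : ℚ[X]) = 3 := rfl
  have hC4 : (C (4 : ℚ) : ℚ[X]) = 4 := rfl
  have hαβ : α < β := by nlinarith
  have hα1 : 1 < α := by nlinarith
  have hα2 : α < 3 / 2 := by nlinarith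
  -- upper linear forms
  have hupc : ∀ b : ℚ, 0 < b → 3 ≤ b ^ 2 → C b - X ∈ T ![(X : ℚ[X]), X ^ 2 - 2, 3 - X ^ 2] := by
    intro b hb0 hb
    have e : C b - X = C (1 / (2 * b)) * ((C b - X) ^ 2 + (3 - X ^ 2) + C (b ^ 2 - 3)) := by
      have h1 : C b - X = C (1 / (2 * b)) * (C (2 * b) * (C b - X)) := by
        rw [← mul_assoc, ← C_mul, one_div, inv_mul_cancel₀ (by positivity), C_1, one_mul]
      conv_lhs => rw [h1]
      congr 1
      simp only [C_sub, C_mul, C_pow, hC2, hC3]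
      ring
    rw [e]
    exact hM.mul (hM.const (by positivity)) (hM.add (hM.add (hM.sq _) hG2)
      (hM.const (by linarith)))
  have h2X : C 2 - X ∈ T ![(X : ℚ[X]), X ^ 2 - 2, 3 - X ^ 2] := hupc 2 (by norm_num) (by norm_num)
  -- lower linear forms
  have hlowc : ∀ c : ℚ, 1 ≤ c → c ≤ 3 / 2 →
      X - C ((4 + 2 * c ^ 2 - 2 * c ^ 3) / (2 + 4 * c - 3 * c ^ 2)) ∈
        T ![(X : ℚ[X]), X ^ 2 - 2, 3 - X ^ 2] := by
    intro c hc1 hc2
    have hpos : 0 < 2 + 4 * c - 3 * c ^ 2 := by nlinarith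
    have e : X - C ((4 + 2 * c ^ 2 - 2 * c ^ 3) / (2 + 4 * c - 3 * c ^ 2))
        = C (1 / (2 + 4 * c - 3 * c ^ 2)) * ((X ^ 2 - 2) * (C 2 - X)
          + (X - C c) ^ 2 * (X + C (2 * c - 2))) := by
      have h1 : C ((4 + 2 * c ^ 2 - 2 * c ^ 3) / (2 + 4 * c - 3 * c ^ 2))
          = C (1 / (2 + 4 * c - 3 * c ^ 2)) * C (4 + 2 * c ^ 2 - 2 * c ^ 3) := by
        rw [← C_mul]; congr 1; ring
      have h2 : (X : ℚ[X]) = C (1 / (2 + 4 * c - 3 * c ^ 2))
          * (C (2 + 4 * c - 3 * c ^ 2) * X) := by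
        rw [← mul_assoc, ← C_mul, one_div, inv_mul_cancel₀ hpos.ne', C_1, one_mul]
      conv_lhs => rw [h2]
      rw [h1, ← mul_sub]
      congr 1
      simp only [C_add, C_sub, C_mul, C_pow, hC2, hC3, hC4]
      ring
    rw [e]
    refine hM.mul (hM.const (by positivity)) (hM.add (hM.mul hG1 h2X) (hM.mul (hM.sq _) ?_))
    exact hM.add hX (hM.const (by linarith))
  refine subset_antisymm ?_ (T_subset _ fun i => ?_)
  · refine main hM hαβ ?_ ?_ ?_ ?_
    · have hden : 2 + 4 * α - 3 * α ^ 2 ≠ 0 := by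
        have : 0 < 2 + 4 * α - 3 * α ^ 2 := by nlinarith
        exact this.ne'
      refine lower_of hM (γ := α)
        (φ := fun c => (4 + 2 * c ^ 2 - 2 * c ^ 3) / (2 + 4 * c - 3 * c ^ 2))
        (φR := fun c => (4 + 2 * c ^ 2 - 2 * c ^ 3) / (2 + 4 * c - 3 * c ^ 2))
        (fun c => by push_cast; ring) ?_ ?_ (δ := min (α - 1) (3 / 2 - α))
        (lt_min (by linarith) (by linarith)) fun c hc => ?_
      · exact ContinuousAt.div (by fun_prop) (by fun_prop) hden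
      · show (4 + 2 * α ^ 2 - 2 * α ^ 3) / (2 + 4 * α - 3 * α ^ 2) = α
        rw [div_eq_iff hden]
        have h3 : α ^ 3 = 2 * α := by rw [pow_succ, hα]
        nlinarith
      · have h1 := hc.trans_le (min_le_left _ _)
        have h2 := hc.trans_le (min_le_right _ _)
        rw [abs_lt] at h1 h2
        refine hlowc c ?_ ?_
        · have : (1 : ℝ) ≤ c := by linarith [h1.1]
          exact_mod_cast this
        · have : (c : ℝ) ≤ 3 / 2 := by linarith [h2.2]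
          have h4 : (c : ℝ) ≤ ((3 / 2 : ℚ) : ℝ) := by push_cast; exact this
          exact_mod_cast h4
    · intro ε hε
      obtain ⟨b, hb1, hb2⟩ := exists_rat_btwn (show β < β + ε by linarith)
      refine ⟨b, hb1.le, hb2, hupc b ?_ ?_⟩
      · have : (0 : ℝ) < b := by linarith
        exact_mod_cast this
      · have : (3 : ℝ) ≤ (b : ℝ) ^ 2 := by nlinarith
        exact_mod_cast this
    · refine ⟨X ^ 2 - 2, hG1, ?_, fun t ht => ?_, fun f hf => ?_⟩
      · rw [← hC2, natDegree_X_pow_sub_C]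
        norm_num
      · rw [hev1, sub_pos, ← hα]
        exact pow_lt_pow_left₀ ht.1 hα0.le (by norm_num)
      · have h := dvd_of_root Nat.prime_two (n := 2) (by norm_num) (by rw [hα]; norm_num) f hf
        rw [Nat.cast_ofNat, hC2] at h
        exact h
    · refine ⟨3 - X ^ 2, hG2, ?_, fun t ht => ?_, fun f hf => ?_⟩
      · have : (3 - X ^ 2 : ℚ[X]) = -(X ^ 2 - C 3) := by rw [hC3]; ring
        rw [this, natDegree_neg, natDegree_X_pow_sub_C]
        norm_num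
      · rw [hev2, sub_pos, ← hβ]
        exact pow_lt_pow_left₀ ht.2 (hα0.trans ht.1).le (by norm_num)
      · have h := dvd_of_root Nat.prime_three (n := 2) (by norm_num) (by rw [hβ]; norm_num) f hf
        have e : (3 - X ^ 2 : ℚ[X]) = -(X ^ 2 - C ((3 : ℕ) : ℚ)) := by
          rw [Nat.cast_ofNat, hC3]; ring
        rw [e, neg_dvd]
        exact h
  · fin_cases i
    · intro t ht
      show 0 ≤ aeval t (X : ℚ[X])
      rw [aeval_X]
      exact hα0.le.trans ht.1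
    · intro t ht
      show 0 ≤ aeval t (X ^ 2 - 2 : ℚ[X])
      rw [hev1, sub_nonneg, ← hα]
      exact pow_le_pow_left₀ hα0.le ht.1 2
    · intro t ht
      show 0 ≤ aeval t (3 - X ^ 2 : ℚ[X])
      rw [hev2, sub_nonneg, ← hβ]
      exact pow_le_pow_left₀ (hα0.le.trans ht.1) ht.2 2

end Q48.PosQ
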